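import Mathlib

/-!
# MP_288d1b_co, Q1

For a function `α : ℤ → [0,1]` with finite sum put `‖α‖ = ∑ α i` and
`‖α + k·α‖ = inf_{0<p<1} ∑_i (∑_{j + k l = i} α j * α l)^p`.
Q1 asks whether `‖α‖ * ‖α + 2·α‖ ≤ ‖α + α‖ ^ 2` for every such `α`.

We show that the inequality fails for EVERY nonzero finitely supported `α` with `‖α‖ < 1`
(both sums then have size exactly `‖α‖ ^ 2`).
-/

open scoped ENNReal NNReal Topology

namespace Pool.Agent.Results.MP_288d1b_co.SmallMassFails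

/-- The mass `‖α‖ = ∑ α i`. -/
noncomputable def mass (α : ℤ → ℝ≥0) : ℝ≥0∞ := ∑' i, (α i : ℝ≥0∞)

/-- `(α + k·α)(i) = ∑_{j + k l = i} α j * α l`. -/
noncomputable def coeff (α : ℤ → ℝ≥0) (k : ℤ) (i : ℤ) : ℝ≥0∞ :=
  ∑' q : {q : ℤ × ℤ // q.1 + k * q.2 = i}, (α q.1.1 : ℝ≥0∞) * (α q.1.2 : ℝ≥0∞)

/-- `‖α + k·α‖ = inf_{0<p<1} ∑_i ((α + k·α)(i))^p`. -/
noncomputable def size (α : ℤ → ℝ≥0) (k : ℤ) : ℝ≥0∞ :=
  ⨅ p ∈ Set.Ioo (0 : ℝ) 1, ∑' i : ℤ, (coeff α k i) ^ p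

theorem tsum_coeff (α : ℤ → ℝ≥0) (k : ℤ) : ∑' i, coeff α k i = mass α ^ 2 := by
  have h1 : ∑' q : ℤ × ℤ, (α q.1 : ℝ≥0∞) * (α q.2 : ℝ≥0∞) = mass α ^ 2 := by
    have hp : ∑' q : ℤ × ℤ, (α q.1 : ℝ≥0∞) * (α q.2 : ℝ≥0∞)
        = ∑' i : ℤ, ∑' j : ℤ, (α i : ℝ≥0∞) * (α j : ℝ≥0∞) :=
      ENNReal.tsum_prod (f := fun i j : ℤ => (α i : ℝ≥0∞) * (α j : ℝ≥0∞))
    rw [hp, pow_two]
    simp only [mass]
    rw [← ENNReal.tsum_mul_right]
    exact tsum_congr fun i => ENNReal.tsum_mul_left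
  rw [← h1]
  have h2 := (Equiv.sigmaFiberEquiv (fun q : ℤ × ℤ => q.1 + k * q.2)).tsum_eq
    (fun q : ℤ × ℤ => (α q.1 : ℝ≥0∞) * (α q.2 : ℝ≥0∞))
  rw [← h2]
  exact (ENNReal.tsum_sigma (fun (i : ℤ) (q : {q : ℤ × ℤ // q.1 + k * q.2 = i}) =>
    (α q.1.1 : ℝ≥0∞) * (α q.1.2 : ℝ≥0∞))).symm

theorem tendsto_rpow (c : ℝ≥0∞) (hc : c ≠ ∞) :
    Filter.Tendsto (fun p : ℝ => c ^ p) (𝓝[<] (1 : ℝ)) (𝓝 c) := by
  lift c to ℝ≥0 using hc
  by_cases h0 : c = 0
  · subst h0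
    have : ∀ᶠ p : ℝ in 𝓝[<] (1 : ℝ), ((0 : ℝ≥0) : ℝ≥0∞) ^ p = ((0 : ℝ≥0) : ℝ≥0∞) := by
      have h : Set.Ioo (0 : ℝ) 1 ∈ 𝓝[<] (1 : ℝ) := Ioo_mem_nhdsLT (by norm_num)
      filter_upwards [h] with p hp
      simp [ENNReal.zero_rpow_of_pos hp.1]
    exact (Filter.tendsto_congr' this).2 tendsto_const_nhds
  · have h : (fun p : ℝ => (c : ℝ≥0∞) ^ p) = fun p : ℝ => ((c ^ p : ℝ≥0) : ℝ≥0∞) := by
      funext p
      rw [ENNReal.coe_rpow_of_ne_zero h0]
    rw [h]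
    refine (ENNReal.tendsto_coe).2 ?_
    have h2 : ContinuousAt (fun p : ℝ => c ^ p) 1 := by
      have := NNReal.continuousAt_rpow (x := c) (y := 1) (Or.inl h0)
      exact this.comp (f := fun p : ℝ => (c, p)) (by fun_prop)
    have h3 := h2.tendsto
    simp only [NNReal.rpow_one] at h3
    exact h3.mono_left nhdsWithin_le_nhds

theorem size_eq (α : ℤ → ℝ≥0) (hfin : (Function.support α).Finite) (hm : mass α ≤ 1) (k : ℤ) :
    size α k = mass α ^ 2 := by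
  have hle : ∀ i, coeff α k i ≤ 1 := by
    intro i
    calc coeff α k i ≤ ∑' i, coeff α k i := ENNReal.le_tsum i
      _ = mass α ^ 2 := tsum_coeff α k
      _ ≤ 1 := pow_le_one₀ (zero_le) hm
  -- the support of the coefficients is finite
  classical
  set S : Finset ℤ := (hfin.toFinset ×ˢ hfin.toFinset).image (fun q : ℤ × ℤ => q.1 + k * q.2)
    with hS
  have hzero : ∀ i ∉ S, coeff α k i = 0 := by
    intro i hi
    unfold coeff
    rw [ENNReal.tsum_eq_zero]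
    rintro ⟨⟨a, b⟩, hab⟩
    by_contra hne
    apply hi
    rw [hS, Finset.mem_image]
    refine ⟨(a, b), ?_, hab⟩
    simp only [Finset.mem_product, Set.Finite.mem_toFinset, Function.mem_support]
    constructor
    · intro h; apply hne; simp [h]
    · intro h; apply hne; simp [h]
  apply le_antisymm
  · -- upper bound by letting p tend to 1
    have ht : Filter.Tendsto (fun p : ℝ => ∑ i ∈ S, (coeff α k i) ^ p) (𝓝[<] (1 : ℝ))
        (𝓝 (∑ i ∈ S, coeff α k i)) := by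
      refine tendsto_finsetSum _ fun i _ => tendsto_rpow _ ?_
      exact ne_top_of_le_ne_top ENNReal.one_ne_top (hle i)
    have hsum : ∑ i ∈ S, coeff α k i = mass α ^ 2 := by
      rw [← tsum_coeff α k, tsum_eq_sum (s := S)]
      intro i hi
      exact hzero i hi
    rw [hsum] at ht
    refine ge_of_tendsto ht ?_
    have h : Set.Ioo (0 : ℝ) 1 ∈ 𝓝[<] (1 : ℝ) := Ioo_mem_nhdsLT (by norm_num)
    filter_upwards [h] with p hp
    have h5 : ∑' i : ℤ, (coeff α k i) ^ p = ∑ i ∈ S, (coeff α k i) ^ p := by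
      apply tsum_eq_sum
      intro i hi
      rw [hzero i hi, ENNReal.zero_rpow_of_pos hp.1]
    rw [← h5]
    exact iInf₂_le p hp
  · refine le_iInf₂ fun p hp => ?_
    rw [← tsum_coeff α k]
    refine ENNReal.tsum_le_tsum fun i => ?_
    calc coeff α k i = (coeff α k i) ^ (1 : ℝ) := (ENNReal.rpow_one _).symm
      _ ≤ (coeff α k i) ^ p := ENNReal.rpow_le_rpow_of_exponent_ge (hle i) hp.2.le

/-- **Q1 of MP_288d1b_co has a negative answer.**  (i) For every nonzero finitely supported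
`α : ℤ → [0,1]` with `‖α‖ < 1` the inequality `‖α‖ ‖α + 2·α‖ ≤ ‖α + α‖²` fails.
(ii) In particular it is not true for all `α : ℤ → [0,1]` with finite sum. -/
theorem result :
    (∀ α : ℤ → ℝ≥0, (∀ i, α i ≤ 1) → (Function.support α).Finite → mass α ≠ 0 → mass α < 1 →
      size α 1 ^ 2 < mass α * size α 2) ∧
    ¬ (∀ α : ℤ → ℝ≥0, (∀ i, α i ≤ 1) → mass α ≠ ∞ →
      mass α * size α 2 ≤ size α 1 ^ 2) := by
  have h1 : ∀ α : ℤ → ℝ≥0, (∀ i, α i ≤ 1) → (Function.support α).Finite → mass α ≠ 0 →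
      mass α < 1 → size α 1 ^ 2 < mass α * size α 2 := by
    intro α _ hfin h0 hlt
    rw [size_eq α hfin hlt.le, size_eq α hfin hlt.le]
    have hne : mass α ≠ ∞ := ne_top_of_lt hlt
    lift mass α to ℝ≥0 using hne with m
    have h0' : m ≠ 0 := by simpa using h0
    have hlt' : m < 1 := by exact_mod_cast hlt
    have hpos : 0 < m := pos_iff_ne_zero.2 h0'
    have : (m ^ 2) ^ 2 < m * m ^ 2 := by
      have h3 : 0 < m ^ 3 := by positivity
      calc (m ^ 2) ^ 2 = m ^ 3 * m := by ring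
        _ < m ^ 3 * 1 := mul_lt_mul_of_pos_left hlt' h3
        _ = m * m ^ 2 := by ring
    exact_mod_cast this
  refine ⟨h1, fun hall => ?_⟩
  let α : ℤ → ℝ≥0 := fun i => if i = 0 then 1 / 2 else 0
  have hα : ∀ i, α i ≤ 1 := by
    intro i
    by_cases h : i = 0
    · simp only [α, h, if_true]
      exact NNReal.half_lt_self one_ne_zero |>.le
    · simp [α, h]
  have hm : mass α = ((1 / 2 : ℝ≥0) : ℝ≥0∞) := by
    unfold mass
    rw [tsum_eq_single 0]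
    · simp [α]
    · intro i hi
      simp [α, hi]
  have hfin : (Function.support α).Finite := by
    refine (Set.finite_singleton (0 : ℤ)).subset ?_
    intro i hi
    by_contra h
    apply hi
    have h' : i ≠ 0 := h
    simp [α, h']
  have h2 := h1 α hα hfin (by rw [hm]; exact ENNReal.coe_ne_zero.2 (by norm_num))
    (by rw [hm]; exact_mod_cast (NNReal.half_lt_self one_ne_zero))
  exact absurd (hall α hα (by rw [hm]; exact ENNReal.coe_ne_top)) (not_le.2 h2)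

end Pool.Agent.Results.MP_288d1b_co.SmallMassFails
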